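import Pool.Agent.K1H51.DL.Stm

/-!
The derivatives of the phase `log log (1 + t/μ)`.
-/

set_option autoImplicit false

namespace Pool.Agent.K1H52.DL

open Set Filter Topology Polynomial
open Pool.Agent.K1H51.DL

noncomputable section

/-- the polynomials in the derivatives; `PQ n` belongs to the derivative of order `n + 1` -/
def PQ : ℕ → Polynomial ℝ
  | 0 => X
  | n + 1 => C ((n : ℝ) + 1) * PQ n + derivative (PQ n) * X ^ 2

lemma PQ_succ (n : ℕ) : PQ (n + 1) = C ((n : ℝ) + 1) * PQ n + derivative (PQ n) * X ^ 2 := rfl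

lemma coeff_succ (n j : ℕ) : (PQ (n + 1)).coeff j = ((n : ℝ) + 1) * (PQ n).coeff j +
    if 2 ≤ j then (PQ n).coeff (j - 1) * ((j : ℝ) - 1) else 0 := by
  rw [PQ_succ, coeff_add, coeff_C_mul, coeff_mul_X_pow']
  congr 1
  split_ifs with h
  · rw [coeff_derivative]
    have e : j - 2 + 1 = j - 1 := by omega
    rw [e]
    congr 1
    have : ((j - 2 : ℕ) : ℝ) = (j : ℝ) - 2 := by
      rw [Nat.cast_sub h]; norm_num
    rw [this]
    ring
  · rfl

lemma coeff_nonneg (n : ℕ) : ∀ j, 0 ≤ (PQ n).coeff j := by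
  induction n with
  | zero =>
    intro j
    show 0 ≤ (X : Polynomial ℝ).coeff j
    rw [coeff_X]
    split_ifs <;> norm_num
  | succ n ih =>
    intro j
    rw [coeff_succ]
    apply add_nonneg
    · exact mul_nonneg (by positivity) (ih j)
    · split_ifs with h
      · apply mul_nonneg (ih _)
        have : (2 : ℝ) ≤ j := by exact_mod_cast h
        linarith
      · exact le_rfl

lemma coeff_zero' (n : ℕ) : (PQ n).coeff 0 = 0 := by
  induction n with
  | zero => exact coeff_X_zero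
  | succ n ih =>
    rw [coeff_succ, ih]
    simp

lemma coeff_big (n : ℕ) : ∀ j, n + 1 < j → (PQ n).coeff j = 0 := by
  induction n with
  | zero =>
    intro j hj
    show (X : Polynomial ℝ).coeff j = 0
    rw [coeff_X, if_neg (by omega)]
  | succ n ih =>
    intro j hj
    rw [coeff_succ, ih j (by omega), if_pos (by omega), ih (j - 1) (by omega)]
    simp

lemma coeff_one' (n : ℕ) : 1 ≤ (PQ n).coeff 1 := by
  induction n with
  | zero =>
    show 1 ≤ (X : Polynomial ℝ).coeff 1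
    rw [coeff_X_one]
  | succ n ih =>
    rw [coeff_succ]
    simp only [show ¬ (2 ≤ 1) by norm_num, if_false, add_zero]
    have : (0 : ℝ) ≤ n := Nat.cast_nonneg n
    nlinarith

lemma coeff_top (n : ℕ) : 1 ≤ (PQ n).coeff (n + 1) := by
  induction n with
  | zero =>
    show 1 ≤ (X : Polynomial ℝ).coeff 1
    rw [coeff_X_one]
  | succ n ih =>
    rw [coeff_succ, coeff_big n _ (by omega), if_pos (by omega)]
    have e : n + 1 + 1 - 1 = n + 1 := by omega
    rw [e]
    push_cast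
    have : (0 : ℝ) ≤ n := Nat.cast_nonneg n
    nlinarith

lemma eval_eq (n : ℕ) (w : ℝ) :
    (PQ n).eval w = ∑ j ∈ Finset.range (n + 2), (PQ n).coeff j * w ^ j := by
  apply eval_eq_sum_range'
  rw [Nat.lt_succ_iff, natDegree_le_iff_coeff_eq_zero]
  intro j hj
  exact coeff_big n j hj

lemma eval_ge_one (n : ℕ) {w : ℝ} (hw : 0 ≤ w) : w ≤ (PQ n).eval w := by
  rw [eval_eq]
  have h1 : (PQ n).coeff 1 * w ^ 1 ≤ ∑ j ∈ Finset.range (n + 2), (PQ n).coeff j * w ^ j :=
    Finset.single_le_sum (f := fun j => (PQ n).coeff j * w ^ j)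
      (fun j _ => mul_nonneg (coeff_nonneg n j) (by positivity)) (Finset.mem_range.2 (by omega))
  refine le_trans ?_ h1
  rw [pow_one]
  exact le_mul_of_one_le_left hw (coeff_one' n)

lemma eval_ge_pow (n : ℕ) {w : ℝ} (hw : 0 ≤ w) : w ^ (n + 1) ≤ (PQ n).eval w := by
  rw [eval_eq]
  have h1 : (PQ n).coeff (n + 1) * w ^ (n + 1) ≤
      ∑ j ∈ Finset.range (n + 2), (PQ n).coeff j * w ^ j :=
    Finset.single_le_sum (f := fun j => (PQ n).coeff j * w ^ j)
      (fun j _ => mul_nonneg (coeff_nonneg n j) (by positivity)) (Finset.mem_range.2 (by omega))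
  refine le_trans ?_ h1
  exact le_mul_of_one_le_left (by positivity) (coeff_top n)

lemma eval_le (n : ℕ) {w : ℝ} (hw : 0 ≤ w) :
    (PQ n).eval w ≤ (PQ n).eval 1 * (w + w ^ (n + 1)) := by
  rw [eval_eq n w, eval_eq n 1, Finset.sum_mul]
  apply Finset.sum_le_sum
  intro j hj
  rw [Finset.mem_range] at hj
  rw [one_pow, mul_one]
  rcases Nat.eq_zero_or_pos j with h0 | h0
  · subst h0
    rw [coeff_zero']
    simp
  · apply mul_le_mul_of_nonneg_left _ (coeff_nonneg n j)
    rcases le_total w 1 with h1 | h1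
    · have : w ^ j ≤ w ^ 1 := pow_le_pow_of_le_one hw h1 h0
      rw [pow_one] at this
      have : 0 ≤ w ^ (n + 1) := by positivity
      linarith
    · have : w ^ j ≤ w ^ (n + 1) := pow_le_pow_right₀ h1 (by omega)
      linarith

lemma eval_one_nonneg (n : ℕ) : 0 ≤ (PQ n).eval 1 :=
  zero_le_one.trans (eval_ge_one n zero_le_one)

/-- the derivatives of `κ log log (1 + t/μ)` -/
def ph (κ μ : ℝ) : ℕ → ℝ → ℝ
  | 0, t => κ * Real.log (Real.log (1 + t / μ))
  | n + 1, t => κ * ((-1) ^ n * ((μ + t)⁻¹ ^ (n + 1) * (PQ n).eval (Real.log (1 + t / μ))⁻¹))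

lemma hasDeriv_L {μ t : ℝ} (hμ : 0 < μ) (ht : 0 < t) :
    HasDerivAt (fun s : ℝ => Real.log (1 + s / μ)) (μ + t)⁻¹ t := by
  have h1 : HasDerivAt (fun s : ℝ => 1 + s / μ) (1 / μ) t :=
    ((hasDerivAt_id t).div_const μ).const_add 1
  have h2 : (1 : ℝ) + t / μ ≠ 0 := by positivity
  have h3 := h1.log h2
  convert h3 using 1
  field_simp

lemma L_pos {μ t : ℝ} (hμ : 0 < μ) (ht : 0 < t) : 0 < Real.log (1 + t / μ) := by
  apply Real.log_pos
  have : 0 < t / μ := by positivity
  linarith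

lemma ph_deriv {κ μ : ℝ} (hμ : 0 < μ) (m : ℕ) {t : ℝ} (ht : 0 < t) :
    HasDerivAt (ph κ μ m) (ph κ μ (m + 1) t) t := by
  have hL := L_pos hμ ht
  have hd := hasDeriv_L hμ ht
  have hmt : μ + t ≠ 0 := by positivity
  cases m with
  | zero =>
    have h1 := (hd.log hL.ne').const_mul κ
    refine h1.congr_deriv ?_
    show κ * ((μ + t)⁻¹ / Real.log (1 + t / μ)) =
      κ * ((-1) ^ 0 * ((μ + t)⁻¹ ^ (0 + 1) * (X : Polynomial ℝ).eval (Real.log (1 + t / μ))⁻¹))
    rw [eval_X]
    ring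
  | succ n =>
    have hinv : HasDerivAt (fun s : ℝ => (Real.log (1 + s / μ))⁻¹)
        (-(μ + t)⁻¹ / Real.log (1 + t / μ) ^ 2) t := hd.inv hL.ne'
    have hP : HasDerivAt (fun s : ℝ => (PQ n).eval (Real.log (1 + s / μ))⁻¹)
        ((derivative (PQ n)).eval (Real.log (1 + t / μ))⁻¹ *
          (-(μ + t)⁻¹ / Real.log (1 + t / μ) ^ 2)) t :=
      ((PQ n).hasDerivAt _).comp t hinv
    have h0 : HasDerivAt (fun s : ℝ => μ + s) 1 t := (hasDerivAt_id t).const_add μ
    have hi : HasDerivAt (fun s : ℝ => (μ + s)⁻¹) (-1 / (μ + t) ^ 2) t := h0.inv hmt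
    have hpow : HasDerivAt (fun s : ℝ => (μ + s)⁻¹ ^ (n + 1))
        (((n + 1 : ℕ) : ℝ) * (μ + t)⁻¹ ^ (n + 1 - 1) * (-1 / (μ + t) ^ 2)) t := hi.pow (n + 1)
    have h1 := ((hpow.mul hP).const_mul ((-1 : ℝ) ^ n)).const_mul κ
    refine h1.congr_deriv ?_
    show _ = κ * ((-1) ^ (n + 1) * ((μ + t)⁻¹ ^ (n + 1 + 1) *
      (PQ (n + 1)).eval (Real.log (1 + t / μ))⁻¹))
    rw [PQ_succ, eval_add, eval_mul, eval_mul, eval_C, eval_pow, eval_X, Nat.add_sub_cancel]
    push_cast
    have e1 : (-1 : ℝ) / (μ + t) ^ 2 = -((μ + t)⁻¹ ^ 2) := by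
      rw [inv_pow]; ring
    have e2 : -(μ + t)⁻¹ / Real.log (1 + t / μ) ^ 2 =
        -((μ + t)⁻¹ * (Real.log (1 + t / μ))⁻¹ ^ 2) := by
      rw [inv_pow]; ring
    rw [e1, e2]
    ring

theorem t_PH : S_PH := by
  set K : ℝ := 1 + ∑ n ∈ Finset.range 7, (PQ n).eval 1 with hK
  have hK0 : 0 < K := by
    have : 0 ≤ ∑ n ∈ Finset.range 7, (PQ n).eval 1 :=
      Finset.sum_nonneg fun n _ => eval_one_nonneg n
    rw [hK]; linarith
  have hKn : ∀ n < 7, (PQ n).eval 1 ≤ K := by
    intro n hn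
    have := Finset.single_le_sum (f := fun n => (PQ n).eval 1)
      (fun n _ => eval_one_nonneg n) (Finset.mem_range.2 hn)
    rw [hK]
    linarith
  refine ⟨(1 / 12) ^ 7, 130 * K, by positivity, by positivity, fun J μ hJ hμ => ?_⟩
  set κ := max 1 (Real.log (1 + J / μ)) with hκ
  have hJR : (1 : ℝ) ≤ J := by exact_mod_cast hJ
  have hJ0 : (0 : ℝ) < J := by linarith
  refine ⟨ph κ μ, fun t => rfl, fun m _ t ht => ph_deriv hμ m (by linarith [ht.1]),
    fun m hm1 hm7 t ht => ?_⟩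
  obtain ⟨n, rfl⟩ : ∃ n, m = n + 1 := ⟨m - 1, by omega⟩
  have hn7 : n < 7 := by omega
  have ht0 : 0 < t := by linarith [ht.1]
  set L := Real.log (1 + t / μ) with hL
  have hL0 : 0 < L := L_pos hμ ht0
  set w := L⁻¹ with hw
  have hw0 : 0 < w := inv_pos.2 hL0
  set a := (J : ℝ) * (μ + t)⁻¹ with ha
  have hmt : 0 < μ + t := by positivity
  have ha0 : 0 < a := by positivity
  have e1 : (-1) ^ (n + 1 + 1) * ph κ μ (n + 1) t * (J : ℝ) ^ (n + 1) =
      κ * (a ^ (n + 1) * (PQ n).eval w) := by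
    show (-1) ^ (n + 1 + 1) * (κ * ((-1) ^ n * ((μ + t)⁻¹ ^ (n + 1) * (PQ n).eval w))) *
      (J : ℝ) ^ (n + 1) = _
    have e2 : ((-1 : ℝ) ^ (n + 1 + 1)) * (-1) ^ n = 1 := by
      rw [← pow_add]
      apply Even.neg_one_pow
      exact ⟨n + 1, by ring⟩
    calc (-1 : ℝ) ^ (n + 1 + 1) * (κ * ((-1) ^ n * ((μ + t)⁻¹ ^ (n + 1) * (PQ n).eval w))) *
        (J : ℝ) ^ (n + 1) = ((-1 : ℝ) ^ (n + 1 + 1) * (-1) ^ n) *
          (κ * (((J : ℝ) ^ (n + 1) * (μ + t)⁻¹ ^ (n + 1)) * (PQ n).eval w)) := by ring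
      _ = _ := by rw [e2, one_mul, ← mul_pow]
  rw [e1]
  have hκ1 : 1 ≤ κ := le_max_left _ _
  have hev := eval_le n hw0.le
  have hev0 : (PQ n).eval w ≤ K * (w + w ^ (n + 1)) :=
    hev.trans (mul_le_mul_of_nonneg_right (hKn n hn7) (by positivity))
  have ha1 : a ≤ 1 := by
    rw [ha, ← div_eq_mul_inv, div_le_one hmt]
    linarith [ht.1]
  have hpow12 : (1 / 12 : ℝ) ^ 7 ≤ (1 / 12) ^ (n + 1) :=
    pow_le_pow_of_le_one (by norm_num) (by norm_num) (by omega)
  rcases le_or_gt (J : ℝ) μ with hJμ | hJμ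
  · -- the case `J ≤ μ`
    have hκe : κ = 1 := by
      rw [hκ]
      apply max_eq_left
      have h1 : (1 : ℝ) + J / μ ≤ 2 := by
        have : (J : ℝ) / μ ≤ 1 := by rw [div_le_one hμ]; exact hJμ
        linarith
      have h2 := Real.log_le_log (by positivity) h1
      have := Real.log_two_lt_d9
      linarith
    rw [hκe, one_mul]
    have hz : 0 < t / μ := by positivity
    have hL1 : L ≤ t / μ := by
      have := Real.log_le_sub_one_of_pos (show (0 : ℝ) < 1 + t / μ by positivity)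
      rw [hL]; linarith
    have hL2 : t / (μ + t) ≤ L := by
      have := Real.one_sub_inv_le_log_of_pos (show (0 : ℝ) < 1 + t / μ by positivity)
      rw [hL]
      refine le_trans (le_of_eq ?_) this
      field_simp
      ring
    have haw1 : 1 / 12 ≤ a * w := by
      have h1 : μ / t ≤ w := by
        rw [hw]
        rw [le_inv_comm₀ (by positivity) hL0, inv_div]
        exact hL1
      have h2 : a * (μ / t) ≤ a * w := mul_le_mul_of_nonneg_left h1 ha0.le
      refine le_trans ?_ h2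
      rw [ha]
      have h3 : t ≤ 3 * J := ht.2
      have h4 : (J : ℝ) * (μ + t)⁻¹ * (μ / t) = (J * μ) / ((μ + t) * t) := by
        field_simp
      rw [h4, div_le_div_iff₀ (by norm_num) (by positivity)]
      nlinarith [mul_le_mul h3 h3 ht0.le (by positivity), mul_pos hJ0 hμ]
    have haw2 : a * w ≤ 1 := by
      have h1 : w ≤ (μ + t) / t := by
        rw [hw, inv_le_comm₀ hL0 (by positivity), inv_div]
        exact hL2
      have h2 : a * w ≤ a * ((μ + t) / t) := mul_le_mul_of_nonneg_left h1 ha0.le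
      refine h2.trans ?_
      rw [ha]
      have h3 : (J : ℝ) * (μ + t)⁻¹ * ((μ + t) / t) = J / t := by field_simp
      rw [h3, div_le_one ht0]
      exact ht.1
    constructor
    · have h1 := eval_ge_pow n hw0.le
      calc (1 / 12 : ℝ) ^ 7 ≤ (1 / 12) ^ (n + 1) := hpow12
        _ ≤ (a * w) ^ (n + 1) := pow_le_pow_left₀ (by norm_num) haw1 _
        _ = a ^ (n + 1) * w ^ (n + 1) := mul_pow _ _ _
        _ ≤ _ := mul_le_mul_of_nonneg_left h1 (by positivity)
    · have h1 : a ^ (n + 1) * (PQ n).eval w ≤ a ^ (n + 1) * (K * (w + w ^ (n + 1))) :=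
        mul_le_mul_of_nonneg_left hev0 (by positivity)
      have h2 : a ^ (n + 1) * w ≤ 1 := by
        have h3 : a ^ (n + 1) ≤ a := by
          rw [pow_succ]
          exact mul_le_of_le_one_left ha0.le (pow_le_one₀ ha0.le ha1)
        exact (mul_le_mul_of_nonneg_right h3 hw0.le).trans haw2
      have h3 : a ^ (n + 1) * w ^ (n + 1) ≤ 1 := by
        rw [← mul_pow]
        exact pow_le_one₀ (by positivity) haw2
      have h4 : a ^ (n + 1) * (K * (w + w ^ (n + 1))) =
          K * (a ^ (n + 1) * w + a ^ (n + 1) * w ^ (n + 1)) := by ring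
      have h5 : K * (a ^ (n + 1) * w + a ^ (n + 1) * w ^ (n + 1)) ≤ K * (1 + 1) :=
        mul_le_mul_of_nonneg_left (by linarith) hK0.le
      linarith
  · -- the case `μ < J`
    set l := Real.log (1 + J / μ) with hl
    have hx : 1 < (J : ℝ) / μ := by rw [one_lt_div hμ]; exact hJμ
    have hl1 : 1 / 2 ≤ l := by
      have h1 : (2 : ℝ) ≤ 1 + J / μ := by linarith
      have h2 := Real.log_le_log (by norm_num) h1
      have := Real.log_two_gt_d9
      rw [hl]; linarith
    have hlL : l ≤ L := by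
      rw [hl, hL]
      apply Real.log_le_log (by positivity)
      have : (J : ℝ) / μ ≤ t / μ := div_le_div_of_nonneg_right ht.1 hμ.le
      linarith
    have hLl : L ≤ 3 * l := by
      have h1 : (1 : ℝ) + t / μ ≤ (1 + J / μ) ^ 3 := by
        have h2 : t / μ ≤ 3 * (J / μ) := by
          rw [← mul_div_assoc]
          exact div_le_div_of_nonneg_right ht.2 hμ.le
        nlinarith [sq_nonneg ((J : ℝ) / μ), pow_pos (show (0 : ℝ) < J / μ by positivity) 3]
      have h2 := Real.log_le_log (by positivity) h1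
      rw [Real.log_pow] at h2
      push_cast at h2
      rw [hL, hl]; linarith
    have hl0 : 0 < l := by linarith
    have ha4 : 1 / 4 ≤ a := by
      rw [ha, ← div_eq_mul_inv, div_le_div_iff₀ (by norm_num) hmt]
      linarith [ht.2]
    have hκw1 : 1 / 3 ≤ κ * w := by
      have h1 : l * w ≤ κ * w := mul_le_mul_of_nonneg_right (le_max_right _ _) hw0.le
      refine le_trans ?_ h1
      rw [hw, ← div_eq_mul_inv, div_le_div_iff₀ (by norm_num) hL0]
      linarith
    have hκw2 : κ * w ≤ 2 := by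
      rw [hw, ← div_eq_mul_inv, div_le_iff₀ hL0, hκ]
      apply max_le
      · linarith
      · linarith
    have hw2 : w ≤ 2 := by
      rw [hw, inv_le_comm₀ hL0 (by norm_num)]
      linarith
    constructor
    · have h1 := eval_ge_one n hw0.le
      have h2 : (1 / 4 : ℝ) ^ (n + 1) ≤ a ^ (n + 1) := pow_le_pow_left₀ (by norm_num) ha4 _
      have h3 : (1 / 12 : ℝ) ^ (n + 1) ≤ (1 / 4) ^ (n + 1) * (1 / 3) := by
        have e : (1 / 12 : ℝ) = 1 / 4 * (1 / 3) := by norm_num
        rw [e, mul_pow]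
        apply mul_le_mul_of_nonneg_left _ (by positivity)
        calc (1 / 3 : ℝ) ^ (n + 1) ≤ (1 / 3) ^ 1 :=
              pow_le_pow_of_le_one (by norm_num) (by norm_num) (by omega)
          _ = 1 / 3 := pow_one _
      calc (1 / 12 : ℝ) ^ 7 ≤ (1 / 12) ^ (n + 1) := hpow12
        _ ≤ (1 / 4) ^ (n + 1) * (1 / 3) := h3
        _ ≤ a ^ (n + 1) * (κ * w) := mul_le_mul h2 hκw1 (by norm_num) (by positivity)
        _ = κ * (a ^ (n + 1) * w) := by ring
        _ ≤ _ := mul_le_mul_of_nonneg_left (mul_le_mul_of_nonneg_left h1 (by positivity))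
            (by linarith)
    · have hκ0 : 0 ≤ κ := by linarith
      have h1 : a ^ (n + 1) * (PQ n).eval w ≤ 1 * (K * (w + w ^ (n + 1))) := by
        apply mul_le_mul (pow_le_one₀ ha0.le ha1) hev0 _ zero_le_one
        exact hw0.le.trans (eval_ge_one n hw0.le)
      have h2 : w ^ n ≤ 64 := by
        calc w ^ n ≤ 2 ^ n := pow_le_pow_left₀ hw0.le hw2 n
          _ ≤ 2 ^ 6 := pow_le_pow_right₀ (by norm_num) (by omega)
          _ = 64 := by norm_num
      calc κ * (a ^ (n + 1) * (PQ n).eval w) ≤ κ * (1 * (K * (w + w ^ (n + 1)))) :=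
            mul_le_mul_of_nonneg_left h1 hκ0
        _ = K * ((κ * w) * (1 + w ^ n)) := by ring
        _ ≤ K * (2 * (1 + 64)) := by
            apply mul_le_mul_of_nonneg_left _ hK0.le
            apply mul_le_mul hκw2 (by linarith) (by positivity) (by norm_num)
        _ = 130 * K := by ring

end

end Pool.Agent.K1H52.DL
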